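import Pool.Agent.Helper78.LM.Goals

/-! # Project LM, packet CNI: the table machine counts the accepted guess paths -/

set_option autoImplicit false

namespace Pool.Agent.Helper58.LM

open Pool.Agent.Helper78.LM
open Pool.Agent.Helper81.CC Pool.Agent.Helper51.ZP Pool.Agent.Bin Matrix

/-- the pairs (coin, guess) allowed at a stage -/
def prs (r : Bool) : List (Bool × Bool) :=
  if r = true then [(false, false), (true, false), (false, true), (true, true)]
    else [(false, false), (true, false)]

/-- the move for a pair -/
def mv (A : LinMachine) (x : List Bool) (t : ℕ) (h : List Bool) (a : Bool) (Q s : ℕ)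
    (p : Bool × Bool) : Move :=
  (4 * A.next (x, t, Q / 4, s, p.1, decide (Q % 2 = 1)) +
    2 * (xor (xor (decide (Q / 2 % 2 = 1))
      (par (List.zipWith (fun a b => a && b) h
        (A.vec (x, t, Q / 4, s, p.1, decide (Q % 2 = 1)))))) (a && p.2)).toNat + p.2.toNat,
    A.push (x, t, Q / 4, s, p.1, decide (Q % 2 = 1)))

theorem moves_stg (A : LinMachine) (x : List Bool) (t : ℕ) (h : List Bool) (a : Bool) (Q s : ℕ) :
    moves (stg A x t h a) Q s =
      if Q < 4 * A.w.eval x.length ∧ s < A.w.eval x.length then
        (prs (A.reads (x, t))).map (mv A x t h a Q s) else [] := by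
  unfold moves stg
  by_cases hQ : Q < 4 * A.w.eval x.length
  · by_cases hs : s < A.w.eval x.length
    · refine Eq.trans ?_ (if_pos ⟨hQ, hs⟩).symm
      simp only [List.getD_eq_getElem?_getD, List.getElem?_map, List.getElem?_range hQ,
        List.getElem?_range hs, Option.map_some, Option.getD_some]
      rfl
    · refine Eq.trans ?_ (if_neg fun hc => hs hc.2).symm
      have h2 : (List.range (A.w.eval x.length))[s]? = none := by
        rw [List.getElem?_eq_none_iff, List.length_range]
        omega
      simp only [List.getD_eq_getElem?_getD, List.getElem?_map, List.getElem?_range hQ, h2,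
        Option.map_some, Option.map_none, Option.getD_some, Option.getD_none]
  · refine Eq.trans ?_ (if_neg fun hc => hQ hc.1).symm
    have h2 : (List.range (4 * A.w.eval x.length))[Q]? = none := by
      rw [List.getElem?_eq_none_iff, List.length_range]
      omega
    simp only [List.getD_eq_getElem?_getD, List.getElem?_map, h2, Option.map_none,
      Option.getD_none, List.getElem?_nil]

theorem toNat_le (b : Bool) : b.toNat ≤ 1 := by cases b <;> simp

theorem good_inst (A : LinMachine) (x a : List Bool) :
    Good (4 * A.w.eval x.length) (A.w.eval x.length) (inst A x a) := by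
  intro S hS q s m hm
  obtain ⟨t, -, rfl⟩ := List.mem_map.1 hS
  rw [moves_stg] at hm
  split_ifs at hm with hc
  · obtain ⟨p, -, rfl⟩ := List.mem_map.1 hm
    refine ⟨?_, A.push_le _, A.push_lt _⟩
    have h1 := A.next_lt (x, t, q / 4, s, p.1, decide (q % 2 = 1))
    have h2 := toNat_le (xor (xor (decide (q / 2 % 2 = 1))
      (par (List.zipWith (fun a b => a && b) ((mids A x 0 a).getD t [])
        (A.vec (x, t, q / 4, s, p.1, decide (q % 2 = 1)))))) (a.getD t false && p.2))
    have h3 := toNat_le p.2
    change A.next (x, t, q / 4, s, p.1, decide (q % 2 = 1)) < A.w.eval x.length at h1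
    simp only [mv]
    omega
  · exact absurd hm List.not_mem_nil

/-- the tables from the stage `t` on -/
def stgs (A : LinMachine) (x : List Bool) : ℕ → List (List Bool) → List Bool → List Stage
  | t, h :: hs, a :: as => stg A x t h a :: stgs A x (t + 1) hs as
  | _, _, _ => []

theorem stgs_eq (A : LinMachine) (x : List Bool) : ∀ (as : List Bool) (hs : List (List Bool)) (t : ℕ),
    hs.length = as.length →
    (List.range as.length).map (fun i => stg A x (t + i) (hs.getD i []) (as.getD i false)) =
      stgs A x t hs as := by
  intro as
  induction as with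
  | nil =>
    intro hs t h
    cases hs with
    | nil => rfl
    | cons b hs => simp at h
  | cons a as ih =>
    intro hs t h
    cases hs with
    | nil => simp at h
    | cons b hs =>
      have h1 : hs.length = as.length := by simpa using h
      rw [List.length_cons, List.range_succ_eq_map, List.map_cons, List.map_map, stgs]
      congr 1
      rw [← ih hs (t + 1) h1]
      refine List.map_congr_left fun i _ => ?_
      simp only [Function.comp, Nat.succ_eq_add_one, List.getD_cons_succ]
      rw [show t + (i + 1) = t + 1 + i by omega]

theorem length_mids (A : LinMachine) (x : List Bool) : ∀ (as : List Bool) (t : ℕ),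
    (mids A x t as).length = as.length := by
  intro as
  induction as with
  | nil => intro t; rfl
  | cons a as ih =>
    intro t
    rw [mids, List.length_cons, ih, List.length_cons]

theorem inst_eq (A : LinMachine) (x a : List Bool) (ha : a.length = A.stages x) :
    inst A x a = stgs A x 0 (mids A x 0 a) a := by
  rw [← stgs_eq A x a _ 0 (length_mids A x a 0), inst, ha]
  refine List.map_congr_left fun i _ => ?_
  rw [Nat.zero_add]

theorem card_cons {α : Type} [Fintype α] (n : ℕ) (P : (Fin (n + 1) → α) → Prop)
    [DecidablePred P] :
    (Finset.univ.filter P).card =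
      ∑ p : α, (Finset.univ.filter fun ps : Fin n → α => P (Fin.cons p ps)).card := by
  simp only [Finset.card_filter]
  rw [← (Fin.consEquiv (fun _ => α)).sum_comp, Fintype.sum_prod_type]
  rfl

theorem ofFn_cons' {α : Type} (n : ℕ) (p : α) (ps : Fin n → α) :
    List.ofFn (Fin.cons p ps : Fin (n + 1) → α) = p :: List.ofFn ps := by
  rw [List.ofFn_succ]
  simp

/-- the final states with the parity `b` -/
def fin (b : Bool) : List ℕ := [4 + 2 * b.toNat, 5 + 2 * b.toNat]

theorem mem_fin (b β o : Bool) (q : ℕ) :
    4 * q + 2 * β.toNat + o.toNat ∈ fin b ↔ q = 1 ∧ β = b := by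
  unfold fin
  have h1 := toNat_le o
  rw [List.mem_cons, List.mem_cons]
  constructor
  · rintro (h | h | h)
    · cases b <;> cases β <;> simp at h ⊢ <;> omega
    · cases b <;> cases β <;> simp at h ⊢ <;> omega
    · exact absurd h List.not_mem_nil
  · rintro ⟨rfl, rfl⟩
    cases o <;> simp <;> omega

theorem cnt_stgs (A : LinMachine) (x : List Bool) (b : Bool) : ∀ (n : ℕ) (as : List Bool)
    (hs : List (List Bool)) (t : ℕ) (c : Ctl) (β : Bool), as.length = n → hs.length = n →
    c.1 < A.w.eval x.length → (∀ s ∈ c.2.1, s < A.w.eval x.length) →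
    cnt (fin b) (stgs A x t hs as) (4 * c.1 + 2 * β.toNat + c.2.2.toNat) c.2.1 =
      (Finset.univ.filter fun ps : Fin n → Bool × Bool =>
        gacc A x t c (List.ofFn ps) = true ∧
          xor β (pi A x t c hs as (List.ofFn ps)) = b).card := by
  intro n
  induction n with
  | zero =>
    intro as hs t c β ha hh hc hst
    obtain rfl := List.length_eq_zero_iff.1 ha
    obtain rfl := List.length_eq_zero_iff.1 hh
    have e1 : stgs A x t [] [] = [] := by simp [stgs]
    rw [e1, cnt]
    have e0 : (4 * c.1 + 2 * β.toNat + c.2.2.toNat ∈ fin b ∧ c.2.1 = []) ↔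
        ((c.1 = 1 ∧ β = b) ∧ c.2.1 = []) := and_congr_left' (mem_fin b β c.2.2 c.1)
    have e2 : ∀ ps : Fin 0 → Bool × Bool, (gacc A x t c (List.ofFn ps) = true ∧
        xor β (pi A x t c [] [] (List.ofFn ps)) = b) ↔ ((c.1 = 1 ∧ β = b) ∧ c.2.1 = []) := by
      intro ps
      rw [List.ofFn_zero, gacc, pi]
      · simp only [decide_eq_true_eq, Bool.xor_false]
        tauto
      · intro _ _ _ _ _ _ hp _ _
        cases hp
    by_cases h : (c.1 = 1 ∧ β = b) ∧ c.2.1 = []
    · rw [if_pos (e0.2 h), Finset.filter_true_of_mem fun ps _ => (e2 ps).2 h]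
      simp
    · rw [if_neg fun hc => h (e0.1 hc), Finset.filter_false_of_mem fun ps _ hp => h ((e2 ps).1 hp)]
      simp
  | succ n ih =>
    intro as hs t c β ha hh hc hst
    obtain ⟨a, as, rfl⟩ : ∃ a as', as = a :: as' := by
      cases as with
      | nil => simp at ha
      | cons a as => exact ⟨a, as, rfl⟩
    obtain ⟨h, hs, rfl⟩ : ∃ h hs', hs = h :: hs' := by
      cases hs with
      | nil => simp at hh
      | cons h hs => exact ⟨h, hs, rfl⟩
    have ha' : as.length = n := by simpa using ha
    have hh' : hs.length = n := by simpa using hh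
    have hw : ∀ z : View, z.1 = x → A.next z < A.w.eval x.length := fun z hz => hz ▸ A.next_lt z
    have hw0 : 0 < A.w.eval x.length := lt_of_le_of_lt (Nat.zero_le _) hc
    have hs0 : c.2.1.headD 0 < A.w.eval x.length := by
      cases hl : c.2.1 with
      | nil => exact hw0
      | cons s l =>
        refine hst s ?_
        rw [hl]
        exact List.mem_cons_self
    have b1 := toNat_le β
    have b2 := toNat_le c.2.2
    have hQ : 4 * c.1 + 2 * β.toNat + c.2.2.toNat < 4 * A.w.eval x.length := by omega
    have q1 : (4 * c.1 + 2 * β.toNat + c.2.2.toNat) / 4 = c.1 := by omega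
    have q2 : decide ((4 * c.1 + 2 * β.toNat + c.2.2.toNat) % 2 = 1) = c.2.2 := by
      cases hb : c.2.2 <;> simp <;> omega
    have q3 : decide ((4 * c.1 + 2 * β.toNat + c.2.2.toNat) / 2 % 2 = 1) = β := by
      cases hb : β <;> simp <;> omega
    rw [card_cons, stgs, cnt, moves_stg, if_pos ⟨hQ, hs0⟩, List.map_map]
    -- the contribution of a pair
    have key : ∀ p : Bool × Bool, (!p.2 || A.reads (x, t)) = true →
        cnt (fin b) (stgs A x (t + 1) hs as)
          (mv A x t h a (4 * c.1 + 2 * β.toNat + c.2.2.toNat) (c.2.1.headD 0) p).1
          ((mv A x t h a (4 * c.1 + 2 * β.toNat + c.2.2.toNat) (c.2.1.headD 0) p).2 ++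
            c.2.1.tail) =
        (Finset.univ.filter fun ps : Fin n → Bool × Bool =>
          gacc A x t c (List.ofFn (Fin.cons p ps : Fin (n + 1) → Bool × Bool)) = true ∧
            xor β (pi A x t c (h :: hs) (a :: as)
              (List.ofFn (Fin.cons p ps : Fin (n + 1) → Bool × Bool))) = b).card := by
      intro p hp
      have e1 := ih as hs (t + 1) (cstep A x t c p)
        (xor (xor β (par (List.zipWith (fun a b => a && b) h (A.vec (cview x t p.1 c)))))
          (a && p.2)) ha' hh' (hw _ rfl) (by
            intro s hs'
            rcases List.mem_append.1 hs' with h1 | h1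
            · exact A.push_lt _ s h1
            · exact hst s (List.mem_of_mem_tail h1))
      have e2 : (mv A x t h a (4 * c.1 + 2 * β.toNat + c.2.2.toNat) (c.2.1.headD 0) p).1 =
          4 * (cstep A x t c p).1 + 2 * (xor (xor β (par (List.zipWith (fun a b => a && b) h
            (A.vec (cview x t p.1 c))))) (a && p.2)).toNat + (cstep A x t c p).2.2.toNat := by
        simp only [mv]
        rw [q1, q2, q3]
        rfl
      have e3 : (mv A x t h a (4 * c.1 + 2 * β.toNat + c.2.2.toNat) (c.2.1.headD 0) p).2 ++
          c.2.1.tail = (cstep A x t c p).2.1 := by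
        simp only [mv]
        rw [q1, q2]
        rfl
      rw [e2, e3, e1]
      refine congrArg Finset.card (Finset.filter_congr fun ps _ => ?_)
      rw [ofFn_cons', gacc, pi, hp, Bool.true_and]
      refine and_congr Iff.rfl ?_
      have e4 : ∀ u v w z : Bool, xor (xor (xor u v) w) z = xor u (xor (xor v w) z) := by decide
      rw [e4]
    have hno : ∀ p : Bool × Bool, (!p.2 || A.reads (x, t)) = false →
        (Finset.univ.filter fun ps : Fin n → Bool × Bool =>
          gacc A x t c (List.ofFn (Fin.cons p ps : Fin (n + 1) → Bool × Bool)) = true ∧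
            xor β (pi A x t c (h :: hs) (a :: as)
              (List.ofFn (Fin.cons p ps : Fin (n + 1) → Bool × Bool))) = b).card = 0 := by
      intro p hp
      rw [Finset.card_eq_zero, Finset.filter_eq_empty_iff]
      intro ps _ h1
      have h2 := h1.1
      rw [ofFn_cons', gacc, hp, Bool.false_and] at h2
      exact Bool.noConfusion h2
    rw [Fintype.sum_prod_type]
    simp only [Fintype.sum_bool]
    cases hr : A.reads (x, t) with
    | true =>
      have k1 := key (true, true) (by simp [hr])
      have k2 := key (true, false) (by simp)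
      have k3 := key (false, true) (by simp [hr])
      have k4 := key (false, false) (by simp)
      rw [← k1, ← k2, ← k3, ← k4]
      simp only [prs, if_true, List.map_cons, List.map_nil, List.sum_cons, List.sum_nil,
        Function.comp]
      omega
    | false =>
      have k1 := hno (true, true) (by simp [hr])
      have k2 := key (true, false) (by simp)
      have k3 := hno (false, true) (by simp [hr])
      have k4 := key (false, false) (by simp)
      rw [k1, ← k2, k3, ← k4]
      simp only [prs, Bool.false_eq_true, if_false, List.map_cons, List.map_nil, List.sum_cons,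
        List.sum_nil, Function.comp]
      omega

theorem cni : CniStmt := by
  intro A x a ha
  have hw : 0 < A.w.eval x.length :=
    lt_of_le_of_lt (Nat.zero_le _) (A.next_lt (x, 0, 0, 0, false, false))
  have h1 := fun b => cnt_stgs A x b (A.stages x) a (mids A x 0 a) 0 c0 false ha
    ((length_mids A x a 0).trans ha) hw (fun s hs => absurd hs List.not_mem_nil)
  refine ⟨good_inst A x a, ?_, ?_⟩
  · rw [inst_eq A x a ha]
    have h2 := h1 false
    simp only [Bool.false_xor] at h2
    exact h2
  · rw [inst_eq A x a ha]
    have h2 := h1 true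
    simp only [Bool.false_xor] at h2
    exact h2

end Pool.Agent.Helper58.LM
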